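import Pool.Agent.H29.SQ.Main

set_option autoImplicit false

/-!
# Curves whose span is their essential span: the three classes
-/

namespace Pool.Agent.H29.SQ

open Pool.Agent.H29.Sp

/-- Some point `c` of `C` has all its far pairs in one connected set of far pairs: if `y`, `y'` are
points of `C` with `|c - y| ≥ s` and `|c - y'| ≥ s`, then `(c, y)` and `(c, y')` lie in one connected
set of pairs of points of `C` at distance `≥ s`. -/
def FarJoined (C : Set Pl) (s : ℝ) : Prop :=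
  ∃ c ∈ C, ∀ y ∈ C, ∀ y' ∈ C, s ≤ dist c y → s ≤ dist c y' →
    ∃ T : Set (Pl × Pl), IsPreconnected T ∧ T ⊆ C ×ˢ C ∧ (∀ p ∈ T, s ≤ dist p.1 p.2) ∧
      (c, y) ∈ T ∧ (c, y') ∈ T

/-- Some continuous real function on `C` has all its fibres of diameter `≤ s`. -/
def SmallFibres (C : Set Pl) (s : ℝ) : Prop :=
  ∃ f : Pl → ℝ, ContinuousOn f C ∧ ∀ z ∈ C, ∀ z' ∈ C, f z = f z' → dist z z' ≤ s

/-- The closed curve `h` is swept out by arcs `h (exp (i [X t, Y t]))`, `0 ≤ t ≤ 1`, which all contain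
the point `h (exp (i a))`, begin with this one point, end with the whole curve, and have their two
endpoints at distance `≤ s`. -/
def Swept (h : Circle → Pl) (s : ℝ) : Prop :=
  ∃ (X Y : unitInterval → ℝ) (a : ℝ), Continuous X ∧ Continuous Y ∧ X 0 = a ∧ Y 0 = a ∧
    Y 1 = X 1 + 2 * Real.pi ∧ ∀ t, X t ≤ a ∧ a ≤ Y t ∧ Y t ≤ X t + 2 * Real.pi ∧
      dist (h (Circle.exp (X t))) (h (Circle.exp (Y t))) ≤ s

/-- `C` is a triangle with one concave side: `C = [A, B] ∪ [A, D] ∪ γ`, where `A`, `B`, `D` are not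
collinear, `γ` is a continuum in the triangle `A B D` containing `B` and `D`, and no point of an open
segment from `A` to a point of `γ` lies in the convex hull of `γ`. -/
def ConcaveTriangle (C : Set Pl) : Prop :=
  ∃ (A B D : Pl) (γ : Set Pl), ¬ Collinear ℝ {A, B, D} ∧ IsCompact γ ∧ IsConnected γ ∧
    B ∈ γ ∧ D ∈ γ ∧ γ ⊆ convexHull ℝ {A, B, D} ∧
    (∀ z ∈ γ, ∀ w ∈ openSegment ℝ A z, w ∉ convexHull ℝ γ) ∧
    C = segment ℝ A B ∪ segment ℝ A D ∪ γ

/-- `C` is the quadrilateral `A B E D`, where `E` lies in the triangle `A B D` but not on its sides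
`A B` and `A D`. -/
def NonconvexQuad (C : Set Pl) : Prop :=
  ∃ A B E D : Pl, ¬ Collinear ℝ {A, B, D} ∧ E ∈ convexHull ℝ {A, B, D} ∧ E ∉ segment ℝ A B ∧
    E ∉ segment ℝ A D ∧
    C = segment ℝ A B ∪ segment ℝ B E ∪ segment ℝ E D ∪ segment ℝ D A

end Pool.Agent.H29.SQ
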