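import Pool.Agent.H29.Sp.Final

set_option autoImplicit false

/-!
# One curve: symmetric continua of pairs are essential, the span at one level
-/

namespace Pool.Agent.H29.SQ

open Set Complex Pool.Agent.H29.Sp

private theorem neg_div_mem (b c : Circle) (hbc : b ≠ c) :
    -(b : ℂ) / (c : ℂ) ∈ slitPlane := by
  rw [mem_slitPlane_iff_arg]
  have hc : (c : ℂ) ≠ 0 := Circle.coe_ne_zero c
  have hb : (b : ℂ) ≠ 0 := Circle.coe_ne_zero b
  refine ⟨fun h => ?_, div_ne_zero (neg_ne_zero.2 hb) hc⟩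
  have hn : ‖-(b : ℂ) / (c : ℂ)‖ = 1 := by
    rw [norm_div, norm_neg, Circle.norm_coe, Circle.norm_coe, div_one]
  have h1 := norm_mul_exp_arg_mul_I (-(b : ℂ) / (c : ℂ))
  rw [hn, h, exp_pi_mul_I, ofReal_one, one_mul] at h1
  apply hbc
  apply Subtype.ext
  have h2 : -(c : ℂ) = -(b : ℂ) := by
    field_simp at h1
    exact h1
  exact (neg_injective h2).symm

private theorem exp_arg_neg (b c : Circle) :
    exp ((arg (-(b : ℂ) / (c : ℂ)) : ℂ) * I) = -(b : ℂ) / (c : ℂ) := by
  have hn : ‖-(b : ℂ) / (c : ℂ)‖ = 1 := by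
    rw [norm_div, norm_neg, Circle.norm_coe, Circle.norm_coe, div_one]
  have h1 := norm_mul_exp_arg_mul_I (-(b : ℂ) / (c : ℂ))
  rwa [hn, ofReal_one, one_mul] at h1

/-- A symmetric connected set of pairs off the diagonal has no angle. -/
theorem no_angle_swap {E : Type*} [PseudoMetricSpace E] (g : Circle → E) (W : Set (E × E))
    (hW : IsPreconnected W) (hne : W.Nonempty) (hs : ∀ p ∈ W, p.swap ∈ W)
    (hd : ∀ p ∈ W, p.1 ≠ p.2) : ¬ HasAngle g W := by
  rintro ⟨θ, hθ, he⟩
  have hθ' : ContinuousOn (fun p : E × E => θ p.swap) W :=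
    hθ.comp continuous_swap.continuousOn hs
  have hk : ContinuousOn (fun p => (Circle.exp (θ p) : ℂ)) W := by
    have h1 : Continuous (fun x : ℝ => (Circle.exp x : ℂ)) :=
      continuous_subtype_val.comp Circle.exp.continuous
    exact h1.comp_continuousOn hθ
  have hk' : ContinuousOn (fun p : E × E => (Circle.exp (θ p.swap) : ℂ)) W := by
    have h1 : Continuous (fun x : ℝ => (Circle.exp x : ℂ)) :=
      continuous_subtype_val.comp Circle.exp.continuous
    exact h1.comp_continuousOn hθ'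
  have hkk : ∀ p ∈ W, Circle.exp (θ p.swap) ≠ Circle.exp (θ p) := by
    intro p hp heq
    apply hd p hp
    rw [he p hp, ← heq]
    exact (he p.swap (hs p hp)).symm
  set φ : E × E → ℝ := fun p =>
    arg (-(Circle.exp (θ p.swap) : ℂ) / (Circle.exp (θ p) : ℂ)) with hφ
  have hφc : ContinuousOn φ W := by
    intro a ha
    have h1 : ContinuousWithinAt (fun p : E × E =>
        -(Circle.exp (θ p.swap) : ℂ) / (Circle.exp (θ p) : ℂ)) W a :=
      (hk' a ha).neg.div (hk a ha) (Circle.coe_ne_zero _)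
    exact ContinuousAt.comp_continuousWithinAt (g := arg)
      (f := fun p : E × E => -(Circle.exp (θ p.swap) : ℂ) / (Circle.exp (θ p) : ℂ)) (x := a)
      (continuousAt_arg (neg_div_mem _ _ (hkk a ha))) h1
  set Φ : E × E → ℝ := fun p => θ p.swap - θ p - (φ p + Real.pi) with hΦ
  have hΦc : ContinuousOn Φ W := (hθ'.sub hθ).sub (hφc.add continuousOn_const)
  -- values in 2 pi Z
  have hint : ∀ p ∈ W, ∃ n : ℤ, Φ p = n * (2 * Real.pi) := by
    intro p hp
    have h1 : exp ((Φ p : ℂ) * I) = 1 := by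
      have h2 : ((Φ p : ℝ) : ℂ) * I =
          (θ p.swap : ℂ) * I - (θ p : ℂ) * I - ((φ p : ℂ) * I + (Real.pi : ℂ) * I) := by
        simp only [hΦ]
        push_cast
        ring
      rw [h2, exp_sub, exp_sub, exp_add, exp_pi_mul_I]
      have h3 : exp ((φ p : ℂ) * I) =
          -(Circle.exp (θ p.swap) : ℂ) / (Circle.exp (θ p) : ℂ) := exp_arg_neg _ _
      rw [h3, ← Circle.coe_exp, ← Circle.coe_exp]
      have h4 : (Circle.exp (θ p.swap) : ℂ) ≠ 0 := Circle.coe_ne_zero _
      have h5 : (Circle.exp (θ p) : ℂ) ≠ 0 := Circle.coe_ne_zero _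
      field_simp
    rw [Complex.exp_eq_one_iff] at h1
    obtain ⟨n, hn⟩ := h1
    refine ⟨n, ?_⟩
    have h2 : ((Φ p : ℝ) : ℂ) = ((n * (2 * Real.pi) : ℝ) : ℂ) := by
      have h3 : ((Φ p : ℝ) : ℂ) * I = ((n * (2 * Real.pi) : ℝ) : ℂ) * I := by
        rw [hn]; push_cast; ring
      exact mul_right_cancel₀ I_ne_zero h3
    exact_mod_cast h2
  have hsum : ∀ p ∈ W, Φ p + Φ p.swap = -(2 * Real.pi) := by
    intro p hp
    have h1 : φ p.swap = - φ p := by
      simp only [hφ, Prod.swap_swap]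
      have h2 : -(Circle.exp (θ p) : ℂ) / (Circle.exp (θ p.swap) : ℂ) =
          (-(Circle.exp (θ p.swap) : ℂ) / (Circle.exp (θ p) : ℂ))⁻¹ := by
        rw [inv_div, div_neg, neg_div]
      rw [h2, Complex.arg_inv, if_neg]
      exact (mem_slitPlane_iff_arg.1 (neg_div_mem _ _ (hkk p hp))).1
    simp only [hΦ, Prod.swap_swap]
    rw [h1]
    ring
  obtain ⟨p, hp⟩ := hne
  obtain ⟨n, hn⟩ := hint p hp
  have h1 := hsum p hp
  have hpi := Real.pi_pos
  have key : ∃ q ∈ W, Φ q = -Real.pi := by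
    rcases le_or_gt 0 n with h2 | h2
    · have h3 : (0 : ℝ) ≤ n := by exact_mod_cast h2
      have h4 : 0 ≤ Φ p := by rw [hn]; positivity
      exact hW.intermediate_value (hs p hp) hp hΦc ⟨by linarith, by linarith⟩
    · have h3 : (n : ℝ) ≤ -1 := by exact_mod_cast (show n ≤ -1 by omega)
      have h4 : Φ p ≤ -(2 * Real.pi) := by rw [hn]; nlinarith
      exact hW.intermediate_value hp (hs p hp) hΦc ⟨by linarith, by linarith⟩
  obtain ⟨q, hq, hqΦ⟩ := key
  obtain ⟨m, hm⟩ := hint q hq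
  rw [hqΦ] at hm
  have h5 : (2 * m + 1 : ℝ) * Real.pi = 0 := by linear_combination -hm
  rcases mul_eq_zero.1 h5 with h6 | h6
  · have : (2 * m + 1 : ℤ) = 0 := by exact_mod_cast h6
    omega
  · linarith

/-- One curve at one level. -/
theorem curve_le (h : Circle → ℂ) (hh : Continuous h) (hhi : Function.Injective h) {s : ℝ}
    (hs : ess h < s) (c : ℂ) (hc : c ∈ Set.range h)
    (hT : ∀ y ∈ Set.range h, ∀ y' ∈ Set.range h, s ≤ dist c y → s ≤ dist c y' →
      ∃ T : Set (ℂ × ℂ), IsPreconnected T ∧ T ⊆ Set.range h ×ˢ Set.range h ∧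
        (∀ p ∈ T, s ≤ dist p.1 p.2) ∧ (c, y) ∈ T ∧ (c, y') ∈ T) :
    span (Set.range h) ≤ s := by
  have hs0 : 0 < s := lt_of_le_of_lt (ess_nonneg h hh hhi) hs
  have hcomp : IsCompact (Set.range h) := isCompact_range hh
  have hcl : IsClosed (Set.range h ×ˢ Set.range h) := (hcomp.prod hcomp).isClosed
  have hcl2 : IsClosed {p : ℂ × ℂ | s ≤ dist p.1 p.2} :=
    isClosed_le continuous_const (continuous_fst.dist continuous_snd)
  apply csSup_le
  · refine ⟨0, {(c, c)}, ?_, isConnected_singleton, isCompact_singleton, ?_, ?_⟩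
    · intro p hp
      rw [Set.mem_singleton_iff] at hp
      rw [hp]
      exact ⟨hc, hc⟩
    · simp
    · intro p _
      exact dist_nonneg
  · rintro r ⟨Z, hZC, hZc, hZk, hfs, hZd⟩
    by_contra hcon
    push Not at hcon
    have hne : ∀ p ∈ Z, p.1 ≠ p.2 := by
      intro p hp heq
      have h3 := hZd p hp
      rw [heq, dist_self] at h3
      linarith
    have hfr := fst_eq_range h hh hhi Z hZC hZc hZk hfs hne
    have hc1 : c ∈ Prod.fst '' Z := by rw [hfr]; exact hc
    have hc2 : c ∈ Prod.snd '' Z := by rw [← hfs]; exact hc1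
    obtain ⟨⟨c', y⟩, hp, hpc⟩ := hc1
    obtain ⟨⟨x, c''⟩, hq, hqc⟩ := hc2
    simp only at hpc hqc
    subst hpc
    subst hqc
    have hgy : s ≤ dist c'' y := hcon.le.trans (hZd _ hp)
    have hgx : s ≤ dist c'' x := by
      rw [dist_comm]
      exact hcon.le.trans (hZd _ hq)
    obtain ⟨T, hTp, hTs, hTg, hT1, hT2⟩ := hT y (hZC hp).2 x (hZC hq).1 hgy hgx
    have hT's : closure T ⊆ Set.range h ×ˢ Set.range h := closure_minimal hTs hcl
    have hT'g : closure T ⊆ {p : ℂ × ℂ | s ≤ dist p.1 p.2} := closure_minimal hTg hcl2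
    have hT'k : IsCompact (closure T) := (hcomp.prod hcomp).of_isClosed_subset isClosed_closure hT's
    set W0 : Set (ℂ × ℂ) := Z ∪ closure T with hW0
    have hW0p : IsPreconnected W0 :=
      hZc.isPreconnected.union _ hp (subset_closure hT1) hTp.closure
    have hW0s : W0 ⊆ Set.range h ×ˢ Set.range h := union_subset hZC hT's
    have hW0g : ∀ p ∈ W0, s ≤ dist p.1 p.2 := by
      rintro p (hp' | hp')
      · exact hcon.le.trans (hZd p hp')
      · exact hT'g hp'
    have hW0k : IsCompact W0 := hZk.union hT'k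
    set W : Set (ℂ × ℂ) := W0 ∪ Prod.swap '' W0 with hWdef
    have hWp : IsPreconnected W := by
      refine hW0p.union (x, c'') (Or.inl hq) ?_ (hW0p.image _ continuous_swap.continuousOn)
      exact ⟨(c'', x), Or.inr (subset_closure hT2), rfl⟩
    have hWs : W ⊆ Set.range h ×ˢ Set.range h := by
      rintro p (hp' | ⟨q, hq', rfl⟩)
      · exact hW0s hp'
      · exact ⟨(hW0s hq').2, (hW0s hq').1⟩
    have hWg : ∀ p ∈ W, s ≤ dist p.1 p.2 := by
      rintro p (hp' | ⟨q, hq', rfl⟩)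
      · exact hW0g p hp'
      · rw [Prod.fst_swap, Prod.snd_swap, dist_comm]
        exact hW0g q hq'
    have hWk : IsCompact W := hW0k.union (hW0k.image continuous_swap)
    have hWne : W.Nonempty := ⟨_, Or.inl (Or.inl hp)⟩
    refine no_angle_swap h W hWp hWne ?_ ?_
      (iness_of_ess_lt h hh hs W hWs ⟨hWne, hWp⟩ hWk hWg)
    · rintro p (hp' | ⟨q, hq', rfl⟩)
      · exact Or.inr ⟨p, hp', rfl⟩
      · rw [Prod.swap_swap]
        exact Or.inl hq'
    · intro p hp' heq
      have h3 := hWg p hp'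
      rw [heq, dist_self] at h3
      linarith

end Pool.Agent.H29.SQ
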