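import Mathlib

set_option autoImplicit false

/-!
# A triangle with one concave side

`C = [A,B] ∪ [A,D] ∪ γ`, where `γ` joins `B` and `D` inside the triangle `ABD` and the open segments
from `A` to the points of `γ` do not meet the convex hull of `γ`. Let `P` be the point of `γ` nearest
to `A`. Then every chord of `C` parallel to `AP` has length at most `|AP|`, and for `s ≤ |AP|` the
points of `C` at distance at least `s` from `A` form a connected set.
-/

namespace Pool.Agent.H29.SQ

open Set

/-- The plane. -/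
abbrev Pl := EuclideanSpace ℝ (Fin 2)

/-- the determinant of two vectors of the plane -/
noncomputable def det2 (v w : Pl) : ℝ := v 0 * w 1 - v 1 * w 0

theorem det2_comb (e1 e2 : Pl) (a b c d : ℝ) :
    det2 (a • e1 + b • e2) (c • e1 + d • e2) = (a * d - b * c) * det2 e1 e2 := by
  simp only [det2, PiLp.add_apply, PiLp.smul_apply, smul_eq_mul]
  ring

theorem det2_swap (v w : Pl) : det2 w v = - det2 v w := by
  simp only [det2]; ring

theorem det2_sub (u v w : Pl) : det2 u (v - w) = det2 u v - det2 u w := by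
  simp only [det2, PiLp.sub_apply]; ring

theorem uniq {e1 e2 : Pl} (hD : det2 e1 e2 ≠ 0) {a b c d : ℝ}
    (h : a • e1 + b • e2 = c • e1 + d • e2) : a = c ∧ b = d := by
  have h0 := congrArg (fun v : Pl => v 0) h
  have h1 := congrArg (fun v : Pl => v 1) h
  simp only [PiLp.add_apply, PiLp.smul_apply, smul_eq_mul] at h0 h1
  unfold det2 at hD
  constructor
  · have : (a - c) * (e1 0 * e2 1 - e1 1 * e2 0) = 0 := by
      linear_combination (e2 1) * h0 - (e2 0) * h1
    rcases mul_eq_zero.1 this with h | h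
    · linarith
    · exact absurd h hD
  · have : (b - d) * (e1 0 * e2 1 - e1 1 * e2 0) = 0 := by
      linear_combination (e1 0) * h1 - (e1 1) * h0
    rcases mul_eq_zero.1 this with h | h
    · linarith
    · exact absurd h hD

/-- coordinates in the triangle -/
theorem mem_tri {A B D z : Pl} (hz : z ∈ convexHull ℝ ({A, B, D} : Set Pl)) :
    ∃ b d : ℝ, 0 ≤ b ∧ 0 ≤ d ∧ b + d ≤ 1 ∧ z = A + (b • (B - A) + d • (D - A)) := by
  rw [convexHull_insert ⟨B, by simp⟩, convexHull_pair] at hz
  rw [mem_convexJoin] at hz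
  obtain ⟨a, ha, y, hy, hz⟩ := hz
  rw [mem_singleton_iff] at ha
  subst ha
  obtain ⟨p, q, hp, hq, hpq, rfl⟩ := hy
  obtain ⟨s, t, hs, ht, hst, rfl⟩ := hz
  refine ⟨t * p, t * q, mul_nonneg ht hp, mul_nonneg ht hq, ?_, ?_⟩
  · rw [← mul_add, hpq, mul_one]; linarith
  · have h1 : s = 1 - t := by linarith
    have h2 : p = 1 - q := by linarith
    subst h1 h2
    module

theorem tri_mem {A B D : Pl} {b d : ℝ} (hb : 0 ≤ b) (hd : 0 ≤ d) (hbd : b + d ≤ 1) :
    A + (b • (B - A) + d • (D - A)) ∈ convexHull ℝ ({A, B, D} : Set Pl) := by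
  have hc := convex_convexHull ℝ ({A, B, D} : Set Pl)
  have hA : A ∈ convexHull ℝ ({A, B, D} : Set Pl) := subset_convexHull _ _ (by simp)
  have hB : B ∈ convexHull ℝ ({A, B, D} : Set Pl) := subset_convexHull _ _ (by simp)
  have hD : D ∈ convexHull ℝ ({A, B, D} : Set Pl) := subset_convexHull _ _ (by simp)
  have h := hc.sum_mem (t := (Finset.univ : Finset (Fin 3))) (w := ![1 - b - d, b, d])
    (z := ![A, B, D]) (by
      intro i _
      fin_cases i
      · simp; linarith
      · simpa using hb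
      · simpa using hd) (by
      simp [Fin.sum_univ_three]
      ring) (by
      intro i _
      fin_cases i
      · simpa using hA
      · simpa using hB
      · simpa using hD)
  rw [Fin.sum_univ_three] at h
  have h2 : A + (b • (B - A) + d • (D - A)) = (1 - b - d) • A + b • B + d • D := by module
  rw [h2]
  simpa using h

theorem mem_seg {A B z : Pl} (hz : z ∈ segment ℝ A B) :
    ∃ b : ℝ, 0 ≤ b ∧ b ≤ 1 ∧ z = A + b • (B - A) := by
  obtain ⟨s, t, hs, ht, hst, rfl⟩ := hz
  refine ⟨t, ht, by linarith, ?_⟩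
  have h1 : s = 1 - t := by linarith
  subst h1
  module

/-- the data of a concave side -/
structure Side (A B D : Pl) (γ : Set Pl) (P : Pl) : Prop where
  det : det2 (B - A) (D - A) ≠ 0
  hB : B ∈ γ
  hD : D ∈ γ
  tri : γ ⊆ convexHull ℝ ({A, B, D} : Set Pl)
  vis : ∀ z ∈ γ, ∀ w ∈ openSegment ℝ A z, w ∉ convexHull ℝ γ
  hP : P ∈ γ

theorem Side.swap {A B D : Pl} {γ : Set Pl} {P : Pl} (h : Side A B D γ P) : Side A D B γ P where
  det := by
    rw [det2_swap]
    simpa using h.det
  hB := h.hD
  hD := h.hB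
  tri := by
    have : ({A, D, B} : Set Pl) = {A, B, D} := by
      rw [Set.pair_comm D B]
    rw [this]
    exact h.tri
  vis := h.vis
  hP := h.hP

/-- the crossing argument -/
theorem Side.cross {A B D : Pl} {γ : Set Pl} {P : Pl} (h : Side A B D γ P) {q z : Pl}
    (hq : q ∈ convexHull ℝ γ) (hz : z ∈ γ) {τ : ℝ} (hτ : 0 < τ) (he : z - q = τ • (P - A)) :
    False := by
  have hc := convex_convexHull ℝ γ
  have h1 : 0 < 1 + τ := by linarith
  have hw : A + (1 / (1 + τ)) • (z - A) ∈ convexHull ℝ γ := by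
    have h2 : A + (1 / (1 + τ)) • (z - A) = (τ / (1 + τ)) • P + (1 / (1 + τ)) • q := by
      have h3 : z = q + τ • (P - A) := by rw [← he]; abel
      have h4 : τ / (1 + τ) = 1 - 1 / (1 + τ) := by field_simp; ring
      have h5 : (1 / (1 + τ)) * τ = 1 - 1 / (1 + τ) := by field_simp; ring
      rw [h3, h4]
      have h6 : A + (1 / (1 + τ)) • (q + τ • (P - A) - A) =
          A + (1 / (1 + τ)) • (q - A) + ((1 / (1 + τ)) * τ) • (P - A) := by module
      rw [h6, h5]
      module
    rw [h2]
    exact hc (subset_convexHull _ _ h.hP) hq (by positivity) (by positivity) (by field_simp; ring)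
  refine h.vis z hz _ ?_ hw
  refine ⟨1 - 1 / (1 + τ), 1 / (1 + τ), ?_, by positivity, by ring, ?_⟩
  · have : 1 / (1 + τ) < 1 := by
      rw [div_lt_one h1]; linarith
    linarith
  · module

/-- a point `B` on the line `A P` is `P` -/
theorem Side.par {A B D : Pl} {γ : Set Pl} {P : Pl} (h : Side A B D γ P) {z : Pl} (hz : z ∈ γ)
    {κ : ℝ} (hκ : z - P = κ • (P - A)) : κ = 0 ∨ P = A := by
  by_contra hcon
  push Not at hcon
  rcases lt_trichotomy κ 0 with hk | hk | hk
  · -- P - z = (-κ) • (P - A)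
    refine h.cross (q := z) (z := P) (subset_convexHull _ _ hz) h.hP (τ := -κ) (by linarith) ?_
    rw [← neg_sub, hκ, neg_smul]
  · exact hcon.1 hk
  · exact h.cross (q := P) (z := z) (subset_convexHull _ _ h.hP) hz hk hκ

theorem Side.ne {A B D : Pl} {γ : Set Pl} {P : Pl} (h : Side A B D γ P) : A ∉ γ := by
  intro hA
  have hc := convex_convexHull ℝ γ
  refine h.vis B h.hB ((1 / 2 : ℝ) • A + (1 / 2 : ℝ) • B)
    ⟨1 / 2, 1 / 2, by norm_num, by norm_num, by norm_num, rfl⟩
    (hc (subset_convexHull _ _ hA) (subset_convexHull _ _ h.hB) (by norm_num) (by norm_num)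
      (by norm_num))

/-- the chords from a point of the side `AB` -/
theorem Side.caseAB {A B D : Pl} {γ : Set Pl} {P : Pl} (h : Side A B D γ P) {z z' : Pl}
    (hz : z ∈ segment ℝ A B) (hz' : z' ∈ segment ℝ A B ∪ segment ℝ A D ∪ γ)
    (he : det2 (P - A) (z' - z) = 0) : ∃ τ : ℝ, |τ| ≤ 1 ∧ z' - z = τ • (P - A) := by
  obtain ⟨b, hb0, hb1, hzb⟩ := mem_seg hz
  obtain ⟨p1, p2, hp1, hp2, hp12, hP⟩ := mem_tri (h.tri h.hP)
  have hu : P - A = p1 • (B - A) + p2 • (D - A) := by rw [hP]; abel
  have hσ : 0 < p1 + p2 := by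
    rcases (add_nonneg hp1 hp2).lt_or_eq with h1 | h1
    · exact h1
    · exfalso
      have h2 : p1 = 0 := by linarith
      have h3 : p2 = 0 := by linarith
      apply h.ne
      have h4 : P = A := by rw [hP, h2, h3]; simp
      rw [← h4]
      exact h.hP
  have hPA : P ≠ A := by
    intro h4
    apply h.ne
    rw [← h4]
    exact h.hP
  -- coordinates of z'
  obtain ⟨b', d', hb', hd', hbd', hzb', hcase⟩ : ∃ b' d' : ℝ, 0 ≤ b' ∧ 0 ≤ d' ∧ b' + d' ≤ 1 ∧
      z' = A + (b' • (B - A) + d' • (D - A)) ∧ (d' = 0 ∨ b' = 0 ∨ z' ∈ γ) := by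
    rcases hz' with (h1 | h1) | h1
    · obtain ⟨c, hc0, hc1, hc⟩ := mem_seg h1
      exact ⟨c, 0, hc0, le_rfl, by linarith, by rw [hc]; module, Or.inl rfl⟩
    · obtain ⟨c, hc0, hc1, hc⟩ := mem_seg h1
      exact ⟨0, c, le_rfl, hc0, by linarith, by rw [hc]; module, Or.inr (Or.inl rfl)⟩
    · obtain ⟨c, e, hc0, he0, hce, hc⟩ := mem_tri (h.tri h1)
      exact ⟨c, e, hc0, he0, hce, hc, Or.inr (Or.inr h1)⟩
  have hdiff : z' - z = (b' - b) • (B - A) + d' • (D - A) := by
    rw [hzb, hzb']; module
  rw [hu, hdiff, det2_comb] at he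
  have hrel : p1 * d' = p2 * (b' - b) := by
    rcases mul_eq_zero.1 he with h1 | h1
    · linarith
    · exact absurd h1 h.det
  -- z' - z = τ (P - A)
  have hτ : z' - z = ((b' + d' - b) / (p1 + p2)) • (P - A) := by
    rw [hdiff, hu, smul_add, smul_smul, smul_smul]
    have h1 : (b' + d' - b) / (p1 + p2) * p1 = b' - b := by
      field_simp
      linear_combination hrel
    have h2 : (b' + d' - b) / (p1 + p2) * p2 = d' := by
      field_simp
      linear_combination -hrel
    rw [h1, h2]
  refine ⟨_, ?_, hτ⟩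
  suffices hN : |b' + d' - b| ≤ p1 + p2 by
    rw [abs_div, abs_of_pos hσ, div_le_one hσ]
    exact hN
  rcases hp2.lt_or_eq with hp2' | hp2'
  · -- p2 > 0
    have hbb : b ≤ b' := by
      by_contra hcon
      push Not at hcon
      nlinarith [mul_nonneg hp1 hd', mul_pos hp2' (sub_pos.2 hcon)]
    rw [abs_of_nonneg (by linarith)]
    rcases hcase with h1 | h1 | h1
    · rw [h1] at hrel ⊢
      have : b' = b := by
        have h2 : p2 * (b' - b) = 0 := by linarith
        rcases mul_eq_zero.1 h2 with h3 | h3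
        · linarith
        · linarith
      rw [this]; linarith
    · rw [h1] at hrel hbb ⊢
      have hb : b = 0 := le_antisymm hbb hb0
      rw [hb] at hrel ⊢
      have h2 : p1 * d' = 0 := by linarith
      rcases mul_eq_zero.1 h2 with h3 | h3
      · -- P on AD
        have hD' : D - P = ((1 - p2) / p2) • (P - A) := by
          rw [hu, h3, zero_smul, zero_add, smul_smul, div_mul_cancel₀ _ hp2'.ne', hP, h3]
          module
        rcases h.par h.hD hD' with h4 | h4
        · rw [div_eq_zero_iff] at h4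
          rcases h4 with h5 | h5
          · rw [h1] at hbd'
            linarith
          · linarith
        · exact absurd h4 hPA
      · rw [h3]; linarith
    · -- z' in γ
      by_contra hcon
      push Not at hcon
      have hq : (1 - b) • P + b • B ∈ convexHull ℝ γ :=
        convex_convexHull ℝ γ (subset_convexHull _ _ h.hP) (subset_convexHull _ _ h.hB)
          (by linarith) hb0 (by ring)
      refine h.cross hq h1 (τ := ((b' + d' - b) - (1 - b) * (p1 + p2)) / (p1 + p2)) ?_ ?_
      · apply div_pos _ hσ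
        nlinarith [mul_nonneg hb0 hσ.le]
      · have h5 : z' - ((1 - b) • P + b • B) = (z' - z) - (1 - b) • (P - A) := by
          rw [hzb]; module
        rw [h5, hτ, ← sub_smul]
        congr 1
        field_simp
  · -- p2 = 0, then P = B
    have hp2'' : p2 = 0 := hp2'.symm
    have hp1' : 0 < p1 := by rw [hp2''] at hσ; linarith
    rw [hp2''] at hrel
    have hd0 : d' = 0 := by
      have h2 : p1 * d' = 0 := by linarith
      rcases mul_eq_zero.1 h2 with h3 | h3
      · linarith
      · exact h3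
    have hB' : B - P = ((1 - p1) / p1) • (P - A) := by
      rw [hu, hp2'', zero_smul, add_zero, smul_smul, div_mul_cancel₀ _ hp1'.ne', hP, hp2'']
      module
    have hp11 : p1 = 1 := by
      rcases h.par h.hB hB' with h4 | h4
      · rw [div_eq_zero_iff] at h4
        rcases h4 with h5 | h5
        · linarith
        · linarith
      · exact absurd h4 hPA
    rw [hd0, hp11, hp2'', abs_le]
    rw [hd0] at hbd'
    constructor <;> linarith

/-- the chords between two points of `γ` -/
theorem Side.caseG {A B D : Pl} {γ : Set Pl} {P : Pl} (h : Side A B D γ P) {z z' : Pl}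
    (hz : z ∈ γ) (hz' : z' ∈ γ) (he : det2 (P - A) (z' - z) = 0) : z = z' := by
  obtain ⟨p1, p2, hp1, hp2, hp12, hP⟩ := mem_tri (h.tri h.hP)
  obtain ⟨b, d, hb, hd, hbd, hzb⟩ := mem_tri (h.tri hz)
  obtain ⟨b', d', hb', hd', hbd', hzb'⟩ := mem_tri (h.tri hz')
  have hu : P - A = p1 • (B - A) + p2 • (D - A) := by rw [hP]; abel
  have hσ : 0 < p1 + p2 := by
    rcases (add_nonneg hp1 hp2).lt_or_eq with h1 | h1
    · exact h1
    · exfalso
      have h2 : p1 = 0 := by linarith
      have h3 : p2 = 0 := by linarith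
      apply h.ne
      have h4 : P = A := by rw [hP, h2, h3]; simp
      rw [← h4]
      exact h.hP
  have hdiff : z' - z = (b' - b) • (B - A) + (d' - d) • (D - A) := by
    rw [hzb, hzb']; module
  rw [hu, hdiff, det2_comb] at he
  have hrel : p1 * (d' - d) = p2 * (b' - b) := by
    rcases mul_eq_zero.1 he with h1 | h1
    · linarith
    · exact absurd h1 h.det
  have hτ : z' - z = (((b' - b) + (d' - d)) / (p1 + p2)) • (P - A) := by
    rw [hdiff, hu, smul_add, smul_smul, smul_smul]
    have h1 : ((b' - b) + (d' - d)) / (p1 + p2) * p1 = b' - b := by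
      field_simp
      linear_combination hrel
    have h2 : ((b' - b) + (d' - d)) / (p1 + p2) * p2 = d' - d := by
      field_simp
      linear_combination -hrel
    rw [h1, h2]
  rcases lt_trichotomy (((b' - b) + (d' - d)) / (p1 + p2)) 0 with h1 | h1 | h1
  · exfalso
    refine h.cross (subset_convexHull _ _ hz') hz (τ := -(((b' - b) + (d' - d)) / (p1 + p2)))
      (by linarith) ?_
    rw [← neg_sub, hτ, neg_smul]
  · rw [h1, zero_smul, sub_eq_zero] at hτ
    exact hτ.symm
  · exact (h.cross (subset_convexHull _ _ hz) hz' h1 hτ).elim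

/-- all chords parallel to `A P` have length at most `|A P|` -/
theorem Side.chord {A B D : Pl} {γ : Set Pl} {P : Pl} (h : Side A B D γ P) {z z' : Pl}
    (hz : z ∈ segment ℝ A B ∪ segment ℝ A D ∪ γ) (hz' : z' ∈ segment ℝ A B ∪ segment ℝ A D ∪ γ)
    (he : det2 (P - A) (z - A) = det2 (P - A) (z' - A)) : dist z z' ≤ dist A P := by
  have he1 : det2 (P - A) (z' - z) = 0 := by
    have : z' - z = (z' - A) - (z - A) := by abel
    rw [this, det2_sub, he, sub_self]
  have he2 : det2 (P - A) (z - z') = 0 := by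
    have : z - z' = (z - A) - (z' - A) := by abel
    rw [this, det2_sub, he, sub_self]
  have key : ∀ x y : Pl, (∃ τ : ℝ, |τ| ≤ 1 ∧ y - x = τ • (P - A)) → dist x y ≤ dist A P := by
    rintro x y ⟨τ, h1, h2⟩
    rw [dist_comm x y, dist_comm A P, dist_eq_norm, h2, norm_smul, Real.norm_eq_abs, dist_eq_norm]
    exact mul_le_of_le_one_left (norm_nonneg _) h1
  have hswap : segment ℝ A D ∪ segment ℝ A B ∪ γ = segment ℝ A B ∪ segment ℝ A D ∪ γ := by
    rw [Set.union_comm (segment ℝ A D)]
  rcases hz with (h1 | h1) | h1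
  · exact key _ _ (h.caseAB h1 hz' he1)
  · exact key _ _ (h.swap.caseAB h1 (by rw [hswap]; exact hz') he1)
  · rcases hz' with (h2 | h2) | h2
    · rw [dist_comm]
      exact key _ _ (h.caseAB h2 (Or.inr h1) he2)
    · rw [dist_comm]
      exact key _ _ (h.swap.caseAB h2 (Or.inr h1) he2)
    · rw [h.caseG h1 h2 he1, dist_self]
      exact dist_nonneg

/-- the far sets of `A` are connected -/
theorem far_conn {A B D : Pl} {γ : Set Pl} (hγ : IsPreconnected γ) (hB : B ∈ γ) (hD : D ∈ γ)
    {s : ℝ} (hs : ∀ z ∈ γ, s ≤ dist A z) :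
    IsPreconnected {z | z ∈ segment ℝ A B ∪ segment ℝ A D ∪ γ ∧ s ≤ dist A z} := by
  have seg : ∀ E z : Pl, z ∈ segment ℝ A E → s ≤ dist A z →
      ∀ w ∈ segment ℝ z E, w ∈ segment ℝ A E ∧ s ≤ dist A w := by
    intro E z hz hsz w hw
    refine ⟨(convex_segment A E).segment_subset hz (right_mem_segment ℝ A E) hw, ?_⟩
    obtain ⟨b, hb0, hb1, rfl⟩ := mem_seg hz
    obtain ⟨c, hc0, hc1, rfl⟩ := mem_seg hw
    refine hsz.trans ?_
    rw [dist_comm A, dist_comm A, dist_eq_norm, dist_eq_norm]
    have h1 : A + b • (E - A) - A = b • (E - A) := by abel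
    have h2 : A + b • (E - A) + c • (E - (A + b • (E - A))) - A = (b + c * (1 - b)) • (E - A) := by
      module
    rw [h1, h2, norm_smul, norm_smul, Real.norm_eq_abs, Real.norm_eq_abs, abs_of_nonneg hb0,
      abs_of_nonneg (by nlinarith)]
    exact mul_le_mul_of_nonneg_right (by nlinarith) (norm_nonneg _)
  refine isPreconnected_of_forall B ?_
  rintro z ⟨(h1 | h1) | h1, hz⟩
  · refine ⟨segment ℝ z B, ?_, right_mem_segment ℝ z B, left_mem_segment ℝ z B,
      (convex_segment z B).isPreconnected⟩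
    intro w hw
    have := seg B z h1 hz w hw
    exact ⟨Or.inl (Or.inl this.1), this.2⟩
  · refine ⟨segment ℝ z D ∪ γ, ?_, Or.inr hB, Or.inl (left_mem_segment ℝ z D),
      (convex_segment z D).isPreconnected.union D (right_mem_segment ℝ z D) hD hγ⟩
    rintro w (hw | hw)
    · have := seg D z h1 hz w hw
      exact ⟨Or.inl (Or.inr this.1), this.2⟩
    · exact ⟨Or.inr hw, hs w hw⟩
  · exact ⟨γ, fun w hw => ⟨Or.inr hw, hs w hw⟩, hB, h1, hγ⟩

end Pool.Agent.H29.SQ
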