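import Pool.Agent.H29.SQ.Geom

set_option autoImplicit false

/-!
# Nonconvex quadrilaterals

`A B E D` with `E` in the triangle `A B D`, not on the sides `A B` and `A D`: the side
`γ = [B,E] ∪ [E,D]` is concave.
-/

namespace Pool.Agent.H29.SQ

open Set

/-- half planes in coordinates -/
theorem hp_convex (A e1 e2 : Pl) (m k c : ℝ) :
    Convex ℝ {w : Pl | ∃ b d : ℝ, w = A + (b • e1 + d • e2) ∧ c ≤ m * b + k * d} := by
  rintro x ⟨b, d, rfl, h1⟩ y ⟨b', d', rfl, h2⟩ s t hs ht hst
  refine ⟨s * b + t * b', s * d + t * d', ?_, ?_⟩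
  · have h3 : s = 1 - t := by linarith
    subst h3
    module
  · have h3 : c = s * c + t * c := by rw [← add_mul, hst, one_mul]
    rw [h3]
    nlinarith [mul_le_mul_of_nonneg_left h1 hs, mul_le_mul_of_nonneg_left h2 ht]

/-- one segment of the side is seen from `A` -/
theorem vis_seg {A B D : Pl} (hdet : det2 (B - A) (D - A) ≠ 0) {γ : Set Pl} {m k c : ℝ}
    (hc : 0 < c) (hγ : γ ⊆ {w : Pl | ∃ b d : ℝ, w = A + (b • (B - A) + d • (D - A)) ∧
      c ≤ m * b + k * d})
    {x y : Pl} {bx dx b2 d2 : ℝ} (hx : x = A + (bx • (B - A) + dx • (D - A)))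
    (hy : y = A + (b2 • (B - A) + d2 • (D - A))) (hxc : m * bx + k * dx = c)
    (hyc : m * b2 + k * d2 = c) :
    ∀ z ∈ segment ℝ x y, ∀ w ∈ openSegment ℝ A z, w ∉ convexHull ℝ γ := by
  intro z hz w hw hwγ
  have h1 := convexHull_min hγ (hp_convex A (B - A) (D - A) m k c) hwγ
  obtain ⟨b, d, hwb, hbd⟩ := h1
  obtain ⟨s, t, hs, ht, hst, rfl⟩ := hz
  obtain ⟨p, q, hp, hq, hpq, hw2⟩ := hw
  have h2 : w = A + ((q * (s * bx + t * b2)) • (B - A) + (q * (s * dx + t * d2)) • (D - A)) := by
    rw [← hw2, hx, hy]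
    have h3 : p = 1 - q := by linarith
    have h4 : s = 1 - t := by linarith
    subst h3 h4
    module
  have h5 : b • (B - A) + d • (D - A) =
      (q * (s * bx + t * b2)) • (B - A) + (q * (s * dx + t * d2)) • (D - A) := by
    have := hwb.symm.trans h2
    exact add_left_cancel this
  obtain ⟨h6, h7⟩ := uniq hdet h5
  rw [h6, h7] at hbd
  have h8 : m * (q * (s * bx + t * b2)) + k * (q * (s * dx + t * d2)) = q * c := by
    have : m * (q * (s * bx + t * b2)) + k * (q * (s * dx + t * d2)) =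
        q * (s * (m * bx + k * dx) + t * (m * b2 + k * d2)) := by ring
    rw [this, hxc, hyc, ← add_mul, hst, one_mul]
  rw [h8] at hbd
  have : q < 1 := by linarith
  nlinarith

theorem quad_side {A B D E : Pl} (hdet : det2 (B - A) (D - A) ≠ 0)
    (hE : E ∈ convexHull ℝ ({A, B, D} : Set Pl)) (hEB : E ∉ segment ℝ A B)
    (hED : E ∉ segment ℝ A D) :
    (segment ℝ B E ∪ segment ℝ E D ⊆ convexHull ℝ ({A, B, D} : Set Pl)) ∧
    ∀ z ∈ segment ℝ B E ∪ segment ℝ E D, ∀ w ∈ openSegment ℝ A z,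
      w ∉ convexHull ℝ (segment ℝ B E ∪ segment ℝ E D) := by
  have hcv := convex_convexHull ℝ ({A, B, D} : Set Pl)
  have hBm : B ∈ convexHull ℝ ({A, B, D} : Set Pl) := subset_convexHull _ _ (by simp)
  have hDm : D ∈ convexHull ℝ ({A, B, D} : Set Pl) := subset_convexHull _ _ (by simp)
  obtain ⟨x, y, hx, hy, hxy, hEc⟩ := mem_tri hE
  have hx0 : 0 < x := by
    rcases hx.lt_or_eq with h | h
    · exact h
    · exfalso
      apply hED
      refine ⟨1 - y, y, by linarith, hy, by ring, ?_⟩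
      rw [hEc, ← h]
      module
  have hy0 : 0 < y := by
    rcases hy.lt_or_eq with h | h
    · exact h
    · exfalso
      apply hEB
      refine ⟨1 - x, x, by linarith, hx, by ring, ?_⟩
      rw [hEc, ← h]
      module
  have hBc : B = A + ((1 : ℝ) • (B - A) + (0 : ℝ) • (D - A)) := by module
  have hDc : D = A + ((0 : ℝ) • (B - A) + (1 : ℝ) • (D - A)) := by module
  refine ⟨?_, ?_⟩
  · rintro w (hw | hw)
    · exact hcv.segment_subset hBm hE hw
    · exact hcv.segment_subset hE hDm hw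
  · -- the two half planes
    have hG1 : segment ℝ B E ∪ segment ℝ E D ⊆ {w : Pl | ∃ b d : ℝ,
        w = A + (b • (B - A) + d • (D - A)) ∧ y ≤ y * b + (1 - x) * d} := by
      have hc := hp_convex A (B - A) (D - A) y (1 - x) y
      have m1 : B ∈ {w : Pl | ∃ b d : ℝ,
        w = A + (b • (B - A) + d • (D - A)) ∧ y ≤ y * b + (1 - x) * d} :=
        ⟨1, 0, hBc, by linarith⟩
      have m2 : E ∈ {w : Pl | ∃ b d : ℝ,
        w = A + (b • (B - A) + d • (D - A)) ∧ y ≤ y * b + (1 - x) * d} :=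
        ⟨x, y, hEc, by nlinarith⟩
      have m3 : D ∈ {w : Pl | ∃ b d : ℝ,
        w = A + (b • (B - A) + d • (D - A)) ∧ y ≤ y * b + (1 - x) * d} :=
        ⟨0, 1, hDc, by linarith⟩
      exact union_subset (hc.segment_subset m1 m2) (hc.segment_subset m2 m3)
    have hG2 : segment ℝ B E ∪ segment ℝ E D ⊆ {w : Pl | ∃ b d : ℝ,
        w = A + (b • (B - A) + d • (D - A)) ∧ x ≤ (1 - y) * b + x * d} := by
      have hc := hp_convex A (B - A) (D - A) (1 - y) x x
      have m1 : B ∈ {w : Pl | ∃ b d : ℝ,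
        w = A + (b • (B - A) + d • (D - A)) ∧ x ≤ (1 - y) * b + x * d} :=
        ⟨1, 0, hBc, by linarith⟩
      have m2 : E ∈ {w : Pl | ∃ b d : ℝ,
        w = A + (b • (B - A) + d • (D - A)) ∧ x ≤ (1 - y) * b + x * d} :=
        ⟨x, y, hEc, by nlinarith⟩
      have m3 : D ∈ {w : Pl | ∃ b d : ℝ,
        w = A + (b • (B - A) + d • (D - A)) ∧ x ≤ (1 - y) * b + x * d} :=
        ⟨0, 1, hDc, by linarith⟩
      exact union_subset (hc.segment_subset m1 m2) (hc.segment_subset m2 m3)
    rintro z (hz | hz)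
    · exact vis_seg hdet hy0 hG1 hBc hEc (by ring) (by ring) z hz
    · exact vis_seg hdet hx0 hG2 hEc hDc (by ring) (by ring) z hz

/-- three points which are not collinear -/
theorem det2_ne {A B D : Pl} (h : ¬ Collinear ℝ ({A, B, D} : Set Pl)) :
    det2 (B - A) (D - A) ≠ 0 := by
  intro h0
  apply h
  by_cases hBA : B - A = 0
  · have : B = A := sub_eq_zero.1 hBA
    rw [this]
    simpa using collinear_pair ℝ A D
  · have hn : (B - A) 0 ≠ 0 ∨ (B - A) 1 ≠ 0 := by
      by_contra hcon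
      push Not at hcon
      apply hBA
      ext i
      fin_cases i
      · exact hcon.1
      · exact hcon.2
    obtain ⟨κ, hκ⟩ : ∃ κ : ℝ, D - A = κ • (B - A) := by
      unfold det2 at h0
      rcases hn with h1 | h1
      · refine ⟨(D - A) 0 / (B - A) 0, ?_⟩
        ext i
        fin_cases i
        · show (D - A) 0 = ((D - A) 0 / (B - A) 0) * (B - A) 0
          field_simp
        · show (D - A) 1 = ((D - A) 0 / (B - A) 0) * (B - A) 1
          field_simp
          linarith
      · refine ⟨(D - A) 1 / (B - A) 1, ?_⟩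
        ext i
        fin_cases i
        · show (D - A) 0 = ((D - A) 1 / (B - A) 1) * (B - A) 0
          field_simp
          linarith
        · show (D - A) 1 = ((D - A) 1 / (B - A) 1) * (B - A) 1
          field_simp
    rw [collinear_iff_of_mem (p₀ := A) (by simp)]
    refine ⟨B - A, ?_⟩
    intro p hp
    rcases hp with rfl | rfl | hp
    · exact ⟨0, by simp⟩
    · exact ⟨1, by simp⟩
    · rw [mem_singleton_iff] at hp
      subst hp
      refine ⟨κ, ?_⟩
      rw [← hκ]
      simp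

end Pool.Agent.H29.SQ
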