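import Pool.Agent.H29.SQ.Turn
import Pool.Agent.H29.SQ.Quad

set_option autoImplicit false

/-!
# The criterion for one curve, triangles with a concave side, nonconvex quadrilaterals
-/

namespace Pool.Agent.H29.SQ

open Set Pool.Agent.H29.Sp

/-- Lelek's argument: a real function with small fibres bounds the span. -/
theorem fibre_spanSet {E : Type*} [PseudoMetricSpace E] {X : Set E} {f : E → ℝ}
    (hf : ContinuousOn f X) {δ : ℝ} (hδ : ∀ z ∈ X, ∀ z' ∈ X, f z = f z' → dist z z' ≤ δ) {r : ℝ}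
    (hr : r ∈ spanSet X) : r ≤ δ := by
  obtain ⟨Z, hZX, hZc, hZk, hfs, hZd⟩ := hr
  have hπk : IsCompact (Prod.fst '' Z) := hZk.image continuous_fst
  have hπX : Prod.fst '' Z ⊆ X := by
    rintro _ ⟨p, hp, rfl⟩
    exact (hZX hp).1
  have hπn : (Prod.fst '' Z).Nonempty := hZc.nonempty.image _
  obtain ⟨x0, hx0, hmax⟩ := hπk.exists_isMaxOn hπn (hf.mono hπX)
  have hφ : ContinuousOn (fun p : E × E => f p.1 - f p.2) Z := by
    refine ContinuousOn.sub ?_ ?_
    · exact hf.comp continuous_fst.continuousOn (fun p hp => (hZX hp).1)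
    · exact hf.comp continuous_snd.continuousOn (fun p hp => (hZX hp).2)
  obtain ⟨p, hp, hpx⟩ := hx0
  have hx0' : x0 ∈ Prod.snd '' Z := by rw [← hfs]; exact ⟨p, hp, hpx⟩
  obtain ⟨q, hq, hqx⟩ := hx0'
  have h1 : 0 ≤ f p.1 - f p.2 := by
    have h2 : p.2 ∈ Prod.fst '' Z := by rw [hfs]; exact ⟨p, hp, rfl⟩
    have h3 := hmax h2
    rw [hpx]
    exact sub_nonneg.2 h3
  have h2 : f q.1 - f q.2 ≤ 0 := by
    have h3 := hmax ⟨q, hq, rfl⟩
    rw [hqx]
    exact sub_nonpos.2 h3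
  obtain ⟨w, hw, hw0⟩ := hZc.isPreconnected.intermediate_value hq hp hφ ⟨h2, h1⟩
  have h3 : f w.1 = f w.2 := sub_eq_zero.1 hw0
  exact (hZd w hw).trans (hδ _ (hZX hw).1 _ (hZX hw).2 h3)

theorem fibre_span {E : Type*} [PseudoMetricSpace E] {X : Set E} (hX : X.Nonempty) {f : E → ℝ}
    (hf : ContinuousOn f X) {δ : ℝ} (hδ : ∀ z ∈ X, ∀ z' ∈ X, f z = f z' → dist z z' ≤ δ) :
    span X ≤ δ := by
  obtain ⟨c, hc⟩ := hX
  refine csSup_le ⟨0, {(c, c)}, ?_, isConnected_singleton, isCompact_singleton, ?_, ?_⟩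
    (fun r hr => fibre_spanSet hf hδ hr)
  · intro p hp
    rw [Set.mem_singleton_iff] at hp
    rw [hp]
    exact ⟨hc, hc⟩
  · simp
  · intro p _
    exact dist_nonneg

private noncomputable def eC : Pl ≃ᵢ ℂ :=
  Complex.orthonormalBasisOneI.repr.toIsometryEquiv.symm

/-- `curve_le` in the plane -/
theorem curve_le' (h : Circle → Pl) (hh : Continuous h) (hhi : Function.Injective h) {s : ℝ}
    (hs : ess h < s) (c : Pl) (hc : c ∈ Set.range h)
    (hT : ∀ y ∈ Set.range h, ∀ y' ∈ Set.range h, s ≤ dist c y → s ≤ dist c y' →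
      ∃ T : Set (Pl × Pl), IsPreconnected T ∧ T ⊆ Set.range h ×ˢ Set.range h ∧
        (∀ p ∈ T, s ≤ dist p.1 p.2) ∧ (c, y) ∈ T ∧ (c, y') ∈ T) :
    span (Set.range h) ≤ s := by
  have hhc : Continuous (eC ∘ h) := eC.continuous.comp hh
  have hhin : Function.Injective (eC ∘ h) := eC.injective.comp hhi
  have hes : ess (eC ∘ h) < s := by rw [ess_comp eC h]; exact hs
  obtain ⟨a, rfl⟩ := hc
  have key := curve_le (eC ∘ h) hhc hhin hes (eC (h a)) ⟨a, rfl⟩ (by
    rintro _ ⟨b, rfl⟩ _ ⟨b', rfl⟩ hy hy'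
    have hy1 : s ≤ dist (h a) (h b) := by
      rw [← eC.dist_eq]
      exact hy
    have hy1' : s ≤ dist (h a) (h b') := by
      rw [← eC.dist_eq]
      exact hy'
    obtain ⟨T, hT1, hT2, hT3, hT4, hT5⟩ := hT _ ⟨b, rfl⟩ _ ⟨b', rfl⟩ hy1 hy1'
    refine ⟨Prod.map eC eC '' T,
      hT1.image _ (eC.continuous.prodMap eC.continuous).continuousOn, ?_, ?_,
      ⟨_, hT4, rfl⟩, ⟨_, hT5, rfl⟩⟩
    · rintro _ ⟨p, hp, rfl⟩
      obtain ⟨⟨u, hu⟩, ⟨v, hv⟩⟩ := hT2 hp
      refine ⟨⟨u, ?_⟩, ⟨v, ?_⟩⟩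
      · show eC (h u) = eC p.1
        rw [hu]
      · show eC (h v) = eC p.2
        rw [hv]
    · rintro _ ⟨p, hp, rfl⟩
      show s ≤ dist (eC p.1) (eC p.2)
      rw [eC.dist_eq]
      exact hT3 p hp)
  rwa [Set.range_comp, span_image] at key

/-- Sweepouts by arcs with a common point, in the plane. -/
theorem sweep_le (h : Circle → Pl) (hh : Continuous h) (hhi : Function.Injective h)
    (X Y : unitInterval → ℝ) (hX : Continuous X) (hY : Continuous Y) (a : ℝ) (hXa : X 0 = a)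
    (hYa : Y 0 = a) (hend : Y 1 = X 1 + 2 * Real.pi) (hXle : ∀ t, X t ≤ a) (hYle : ∀ t, a ≤ Y t)
    (hlen : ∀ t, Y t ≤ X t + 2 * Real.pi) {s : ℝ}
    (hs : ∀ t, dist (h (Circle.exp (X t))) (h (Circle.exp (Y t))) ≤ s) :
    span (Set.range h) ≤ s := by
  have hhc : Continuous (eC ∘ h) := eC.continuous.comp hh
  have hhin : Function.Injective (eC ∘ h) := eC.injective.comp hhi
  have key : span (Set.range (eC ∘ h)) ≤ s := by
    refine csSup_le ⟨0, {((eC ∘ h) 1, (eC ∘ h) 1)}, ?_, isConnected_singleton,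
      isCompact_singleton, ?_, ?_⟩ ?_
    · intro p hp
      rw [Set.mem_singleton_iff] at hp
      rw [hp]
      exact ⟨⟨1, rfl⟩, ⟨1, rfl⟩⟩
    · simp
    · intro p _
      exact dist_nonneg
    · intro r hr
      refine sweep_spanSet (eC ∘ h) hhc hhin X Y hX hY a hXa hYa hend hXle hYle hlen ?_ hr
      intro t
      show dist (eC (h (Circle.exp (X t)))) (eC (h (Circle.exp (Y t)))) ≤ s
      rw [eC.dist_eq]
      exact hs t
  rwa [Set.range_comp, span_image] at key

/-- The criterion for `span C = ess C`. -/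
theorem crit (h : Circle → Pl) (hh : Continuous h) (hhi : Function.Injective h)
    (hyp : ∀ ε : ℝ, 0 < ε → ∃ s : ℝ, ess h < s ∧ s < ess h + ε ∧
      ((∃ c ∈ Set.range h, ∀ y ∈ Set.range h, ∀ y' ∈ Set.range h, s ≤ dist c y → s ≤ dist c y' →
          ∃ T : Set (Pl × Pl), IsPreconnected T ∧ T ⊆ Set.range h ×ˢ Set.range h ∧
            (∀ p ∈ T, s ≤ dist p.1 p.2) ∧ (c, y) ∈ T ∧ (c, y') ∈ T) ∨
        (∃ f : Pl → ℝ, ContinuousOn f (Set.range h) ∧
          ∀ z ∈ Set.range h, ∀ z' ∈ Set.range h, f z = f z' → dist z z' ≤ s) ∨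
        (∃ (X Y : unitInterval → ℝ) (a : ℝ), Continuous X ∧ Continuous Y ∧ X 0 = a ∧ Y 0 = a ∧
          Y 1 = X 1 + 2 * Real.pi ∧ ∀ t, X t ≤ a ∧ a ≤ Y t ∧ Y t ≤ X t + 2 * Real.pi ∧
            dist (h (Circle.exp (X t))) (h (Circle.exp (Y t))) ≤ s))) :
    span (Set.range h) = ess h := by
  refine le_antisymm ?_ (fin_le h hh hhi)
  refine le_of_forall_pos_le_add ?_
  intro ε hε
  obtain ⟨s, hs1, hs2, hs3⟩ := hyp ε hε
  refine le_trans ?_ hs2.le
  rcases hs3 with ⟨c, hc, hT⟩ | ⟨f, hf, hδ⟩ | ⟨X, Y, a, hX, hY, h1, h2, h3, h4⟩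
  · exact curve_le' h hh hhi hs1 c hc hT
  · exact fibre_span (Set.range_nonempty h) hf hδ
  · exact sweep_le h hh hhi X Y hX hY a h1 h2 h3 (fun t => (h4 t).1) (fun t => (h4 t).2.1)
      (fun t => (h4 t).2.2.1) (fun t => (h4 t).2.2.2)

/-- A triangle with one concave side. -/
theorem concave (h : Circle → Pl) (hh : Continuous h) (hhi : Function.Injective h) (A B E : Pl)
    (γ : Set Pl) (hdet : det2 (B - A) (E - A) ≠ 0) (hγk : IsCompact γ)
    (hγc : IsPreconnected γ) (hB : B ∈ γ) (hE : E ∈ γ)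
    (htri : γ ⊆ convexHull ℝ ({A, B, E} : Set Pl))
    (hvis : ∀ z ∈ γ, ∀ w ∈ openSegment ℝ A z, w ∉ convexHull ℝ γ)
    (hC : Set.range h = segment ℝ A B ∪ segment ℝ A E ∪ γ) :
    span (Set.range h) = ess h := by
  obtain ⟨P, hP, hPmin⟩ := hγk.exists_isMinOn ⟨B, hB⟩
    (f := fun z => dist A z) (continuous_const.dist continuous_id).continuousOn
  have hside : Side A B E γ P := ⟨hdet, hB, hE, htri, hvis, hP⟩
  have hA : A ∈ Set.range h := by
    rw [hC]
    exact Or.inl (Or.inl (left_mem_segment ℝ A B))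
  refine crit h hh hhi (fun ε hε => ?_)
  refine ⟨ess h + ε / 2, by linarith, by linarith, ?_⟩
  rcases le_or_gt (ess h + ε / 2) (dist A P) with hs | hs
  · left
    refine ⟨A, hA, ?_⟩
    intro y hy y' hy' h1 h2
    refine ⟨{A} ×ˢ {z | z ∈ segment ℝ A B ∪ segment ℝ A E ∪ γ ∧ ess h + ε / 2 ≤ dist A z},
      isPreconnected_singleton.prod (far_conn hγc hB hE (fun z hz => hs.trans (hPmin hz))),
      ?_, ?_, ⟨rfl, ?_, h1⟩, ⟨rfl, ?_, h2⟩⟩
    · rintro ⟨p1, p2⟩ ⟨hp1, hp2⟩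
      rw [Set.mem_singleton_iff] at hp1
      subst hp1
      refine ⟨hA, ?_⟩
      rw [hC]
      exact hp2.1
    · rintro ⟨p1, p2⟩ ⟨hp1, hp2⟩
      rw [Set.mem_singleton_iff] at hp1
      subst hp1
      exact hp2.2
    · rw [← hC]; exact hy
    · rw [← hC]; exact hy'
  · right
    left
    refine ⟨fun z => det2 (P - A) (z - A), ?_, ?_⟩
    · have : Continuous (fun z : Pl => det2 (P - A) (z - A)) := by
        unfold det2
        fun_prop
      exact this.continuousOn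
    · intro z hz z' hz' he
      rw [hC] at hz hz'
      exact (hside.chord hz hz' he).trans hs.le

/-- Nonconvex quadrilaterals (and triangles). -/
theorem quad (h : Circle → Pl) (hh : Continuous h) (hhi : Function.Injective h) (A B F E : Pl)
    (hdet : det2 (B - A) (E - A) ≠ 0)
    (hF : F ∈ convexHull ℝ ({A, B, E} : Set Pl)) (hFB : F ∉ segment ℝ A B)
    (hFE : F ∉ segment ℝ A E)
    (hC : Set.range h = segment ℝ A B ∪ segment ℝ B F ∪ segment ℝ F E ∪ segment ℝ E A) :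
    span (Set.range h) = ess h := by
  obtain ⟨h1, h2⟩ := quad_side hdet hF hFB hFE
  refine concave h hh hhi A B E (segment ℝ B F ∪ segment ℝ F E) hdet ?_ ?_
    (Or.inl (left_mem_segment ℝ B F)) (Or.inr (right_mem_segment ℝ F E)) h1 h2 ?_
  · have hseg : ∀ x y : Pl, IsCompact (segment ℝ x y) := by
      intro x y
      rw [← convexHull_pair]
      exact (Set.toFinite _).isCompact_convexHull ℝ
    exact (hseg B F).union (hseg F E)
  · exact (convex_segment B F).isPreconnected.union F (right_mem_segment ℝ B F)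
      (left_mem_segment ℝ F E) (convex_segment F E).isPreconnected
  · rw [hC, segment_symm ℝ E A]
    ext z
    simp only [Set.mem_union]
    tauto

/-- All curves around `C`. -/
theorem around (h : Circle → Pl) (hh : Continuous h) (hhi : Function.Injective h)
    (he : span (Set.range h) = ess h) (j : Circle → Pl) (hj : Continuous j)
    (hji : Function.Injective j) (hin : Set.range h ⊆ inner (Set.range j)) (D : ℝ)
    (hD : ∀ x ∈ Set.range h, D ≤ Metric.infDist x (Set.range j)) :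
    span (Set.range h) + 2 * D ≤ span (Set.range j) := by
  have h1 := fin_E j hj hji h hh hhi hin D hD
  have h2 := fin_le j hj hji
  rw [he]
  linarith

end Pool.Agent.H29.SQ
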