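import Pool.Agent.H29.SQ.Curve

set_option autoImplicit false

/-!
# Sweepouts by arcs with a common point bound the span
-/

namespace Pool.Agent.H29.SQ

open Set Complex Pool.Agent.H29.Sp

/-- The turning argument with a point which is swept all the time. -/
theorem turn {X : Type*} [TopologicalSpace X] (f : unitInterval × X → ℝ) (hf : Continuous f)
    (h0 : ∀ x, f (0, x) ≤ 0) (h1 : ∀ x, 0 ≤ f (1, x)) (Z : Set (X × X)) (hZ : IsPreconnected Z)
    (hne : ∀ p ∈ Z, ∀ t, ¬ (f (t, p.1) = 0 ∧ f (t, p.2) = 0)) (a : X) (ha : ∀ t, 0 ≤ f (t, a))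
    (x y : X) (hay : (a, y) ∈ Z) (hxa : (x, a) ∈ Z) : False := by
  set G : unitInterval × Z → ℂ := fun p =>
    (f (p.1, p.2.1.1) : ℂ) + I * (f (p.1, p.2.1.2) : ℂ) with hGdef
  have hGc : Continuous G := by
    apply Continuous.add
    · exact continuous_ofReal.comp (hf.comp (by fun_prop))
    · exact continuous_const.mul (continuous_ofReal.comp (hf.comp (by fun_prop)))
  have hre : ∀ p, (G p).re = f (p.1, p.2.1.1) := by
    intro p
    simp [hGdef]
  have him : ∀ p, (G p).im = f (p.1, p.2.1.2) := by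
    intro p
    simp [hGdef]
  have hG0 : ∀ p, G p ≠ 0 := by
    intro p hp
    have h1 := hre p
    have h2 := him p
    rw [hp] at h1 h2
    exact hne p.2.1 p.2.2 p.1 ⟨by simpa using h1.symm, by simpa using h2.symm⟩
  obtain ⟨H, hHc, hH0, hHe⟩ := exists_lift G hGc hG0
  set Θ : Z → ℝ := fun z => (H (1, z)).im with hΘ
  have hΘc : Continuous Θ := continuous_im.comp (hHc.comp (by fun_prop))
  -- the angle when `c * G` stays in the right half plane
  have key : ∀ (z : Z) (c : ℂ), c ≠ 0 → (∀ t, 0 ≤ (c * G (t, z)).re) →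
      Θ z = arg (c * G (1, z)) - arg (c * G (0, z)) := by
    intro z c hc hpos
    have hne' : ∀ t, c * G (t, z) ≠ 0 := fun t => mul_ne_zero hc (hG0 _)
    have hslit : ∀ t, c * G (t, z) ∈ slitPlane := by
      intro t
      rw [mem_slitPlane_iff]
      rcases (hpos t).lt_or_eq with h | h
      · exact Or.inl h
      · right
        intro h2
        exact hne' t (Complex.ext h.symm h2)
    have hGz : Continuous fun t : unitInterval => c * G (t, z) :=
      continuous_const.mul (hGc.comp (by fun_prop))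
    have hL : Continuous fun t : unitInterval => log (c * G (t, z)) :=
      hGz.clog hslit
    have heq : (fun t => H (t, z)) = fun t => log (c * G (t, z)) - log (c * G (0, z)) := by
      apply lift_unique
      · exact hHc.comp (by fun_prop)
      · exact hL.sub continuous_const
      · show H (0, z) = log (c * G (0, z)) - log (c * G (0, z))
        rw [hH0, sub_self]
      · intro t
        show exp (H (t, z)) = exp (log (c * G (t, z)) - log (c * G (0, z)))
        rw [exp_sub, exp_log (hne' t), exp_log (hne' 0), ← hHe t z]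
        have h3 := hG0 (0, z)
        field_simp
    have h4 : H (1, z) = log (c * G (1, z)) - log (c * G (0, z)) := congrFun heq 1
    show (H (1, z)).im = _
    rw [h4, sub_im, log_im, log_im]
  -- at (a, y)
  have hA : 0 < Θ ⟨(a, y), hay⟩ := by
    have hk := key ⟨(a, y), hay⟩ 1 one_ne_zero (by
      intro t
      rw [one_mul, hre]
      exact ha t)
    rw [one_mul, one_mul] at hk
    rw [hk]
    have r0 : (G (0, ⟨(a, y), hay⟩)).re = 0 := by
      rw [hre]
      exact le_antisymm (h0 a) (ha 0)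
    have i0 : (G (0, ⟨(a, y), hay⟩)).im < 0 := by
      rcases (h0 y).lt_or_eq with h | h
      · rw [him]; exact h
      · exfalso
        exact hG0 (0, ⟨(a, y), hay⟩) (Complex.ext r0 (by rw [him]; exact h))
    have a0 : arg (G (0, ⟨(a, y), hay⟩)) < 0 := arg_neg_iff.2 i0
    have a1 : 0 ≤ arg (G (1, ⟨(a, y), hay⟩)) := by
      rw [arg_nonneg_iff, him]
      exact h1 y
    linarith
  -- at (x, a)
  have hB : Θ ⟨(x, a), hxa⟩ < 0 := by
    have hmul : ∀ t, (-I * G (t, ⟨(x, a), hxa⟩)).re = f (t, a) ∧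
        (-I * G (t, ⟨(x, a), hxa⟩)).im = - f (t, x) := by
      intro t
      simp [hGdef]
    have hk := key ⟨(x, a), hxa⟩ (-I) (neg_ne_zero.2 I_ne_zero) (by
      intro t
      rw [(hmul t).1]
      exact ha t)
    rw [hk]
    have i0 : 0 < (-I * G (0, ⟨(x, a), hxa⟩)).im := by
      rw [(hmul 0).2]
      rcases (h0 x).lt_or_eq with h | h
      · linarith
      · exfalso
        refine hne (x, a) hxa 0 ⟨h, ?_⟩
        exact le_antisymm (h0 a) (ha 0)
    have a0 : 0 < arg (-I * G (0, ⟨(x, a), hxa⟩)) := by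
      rcases (arg_nonneg_iff.2 i0.le).lt_or_eq with h | h
      · exact h
      · exfalso
        have h5 := (arg_eq_zero_iff.1 h.symm).2
        linarith
    have a1 : arg (-I * G (1, ⟨(x, a), hxa⟩)) ≤ 0 := by
      by_contra hcon
      push Not at hcon
      have h6 : 0 ≤ (-I * G (1, ⟨(x, a), hxa⟩)).im := arg_nonneg_iff.1 hcon.le
      rw [(hmul 1).2] at h6
      have h7 : f (1, x) = 0 := le_antisymm (by linarith) (h1 x)
      have h8 : arg (-I * G (1, ⟨(x, a), hxa⟩)) = 0 := by
        rw [arg_eq_zero_iff]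
        rw [(hmul 1).1, (hmul 1).2, h7]
        exact ⟨ha 1, by simp⟩
      linarith
    linarith
  have : PreconnectedSpace Z := Subtype.preconnectedSpace hZ
  obtain ⟨w, hw⟩ : (0 : ℝ) ∈ Set.range Θ :=
    mem_range_of_exists_le_of_exists_ge hΘc ⟨_, hB.le⟩ ⟨_, hA.le⟩
  -- the ratio is positive
  have e := hHe 1 w
  have himw : (H (1, w)).im = 0 := hw
  have hexp : exp (H (1, w)) = ((Real.exp (H (1, w)).re : ℝ) : ℂ) := by
    rw [ofReal_exp]
    congr 1
    apply Complex.ext
    · simp
    · simp [himw]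
  rw [hexp] at e
  have r1 := congrArg re e
  have i1 := congrArg im e
  rw [re_ofReal_mul, hre, hre] at r1
  rw [im_ofReal_mul, him, him] at i1
  have hpos := Real.exp_pos (H (1, w)).re
  have c1 : f (0, w.1.1) = 0 := by
    refine le_antisymm (h0 _) ?_
    by_contra hcon
    push Not at hcon
    have := mul_neg_of_pos_of_neg hpos hcon
    have h9 := h1 w.1.1
    simp only at r1
    linarith
  have c2 : f (0, w.1.2) = 0 := by
    refine le_antisymm (h0 _) ?_
    by_contra hcon
    push Not at hcon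
    have := mul_neg_of_pos_of_neg hpos hcon
    have h9 := h1 w.1.2
    simp only at i1
    linarith
  exact hne w.1 w.2 0 ⟨c1, c2⟩

/-- Sweeping the curve by arcs `[X t, Y t]` which all contain the point `a`. -/
theorem sweep_spanSet (h : Circle → ℂ) (hh : Continuous h) (hhi : Function.Injective h)
    (X Y : unitInterval → ℝ) (hX : Continuous X) (hY : Continuous Y) (a : ℝ) (hXa : X 0 = a)
    (hYa : Y 0 = a) (hend : Y 1 = X 1 + 2 * Real.pi) (hXle : ∀ t, X t ≤ a) (hYle : ∀ t, a ≤ Y t)
    (hlen : ∀ t, Y t ≤ X t + 2 * Real.pi) {s : ℝ}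
    (hs : ∀ t, dist (h (Circle.exp (X t))) (h (Circle.exp (Y t))) ≤ s) {r : ℝ}
    (hr : r ∈ spanSet (Set.range h)) : r ≤ s := by
  by_contra hcon
  push Not at hcon
  have hs0 : 0 ≤ s := dist_nonneg.trans (hs 0)
  obtain ⟨Z, hZC, hZc, hZk, hfs, hZd⟩ := hr
  have hne : ∀ p ∈ Z, p.1 ≠ p.2 := by
    intro p hp heq
    have h3 := hZd p hp
    rw [heq, dist_self] at h3
    linarith
  have hfr := fst_eq_range h hh hhi Z hZC hZc hZk hfs hne
  have hemb : Topology.IsClosedEmbedding h := hh.isClosedEmbedding hhi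
  have hembP : Topology.IsClosedEmbedding (Prod.map h h) := hemb.prodMap hemb
  set Z' : Set (Circle × Circle) := Prod.map h h ⁻¹' Z with hZ'
  have himg : Prod.map h h '' Z' = Z := by
    rw [hZ', Set.image_preimage_eq_iff]
    intro p hp
    obtain ⟨a, ha⟩ := (hZC hp).1
    obtain ⟨b, hb⟩ := (hZC hp).2
    exact ⟨(a, b), Prod.ext ha hb⟩
  have hZ'c : IsPreconnected Z' := by
    rw [← hembP.isInducing.isPreconnected_image, himg]
    exact hZc.isPreconnected
  -- the function
  set F : unitInterval × Circle → ℝ := fun p =>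
    ((p.2 : ℂ) * exp (-(((X p.1 + Y p.1) / 2 : ℝ) : ℂ) * I)).re - Real.cos ((Y p.1 - X p.1) / 2)
    with hF
  have hFc : Continuous F := by
    have h1 : Continuous fun p : unitInterval × Circle =>
        (p.2 : ℂ) * exp (-(((X p.1 + Y p.1) / 2 : ℝ) : ℂ) * I) := by
      refine (continuous_subtype_val.comp continuous_snd).mul ?_
      refine continuous_exp.comp ?_
      refine Continuous.mul ?_ continuous_const
      refine Continuous.neg ?_
      exact continuous_ofReal.comp
        (((hX.comp continuous_fst).add (hY.comp continuous_fst)).div_const 2)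
    refine (continuous_re.comp h1).sub ?_
    exact Real.continuous_cos.comp
      (((hY.comp continuous_fst).sub (hX.comp continuous_fst)).div_const 2)
  have hFe : ∀ (t : unitInterval) (θ : ℝ), F (t, Circle.exp θ) =
      Real.cos (θ - (X t + Y t) / 2) - Real.cos ((Y t - X t) / 2) := by
    intro t θ
    simp only [hF]
    congr 1
    rw [Circle.coe_exp, ← exp_add]
    have h2 : (θ : ℂ) * I + -(((X t + Y t) / 2 : ℝ) : ℂ) * I =
        ((θ - (X t + Y t) / 2 : ℝ) : ℂ) * I := by
      push_cast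
      ring
    rw [h2, exp_ofReal_mul_I_re]
  have hsurj : ∀ z : Circle, ∃ θ : ℝ, z = Circle.exp θ := fun z =>
    ⟨arg (z : ℂ), (Circle.exp_arg z).symm⟩
  have hF0 : ∀ z, F (0, z) ≤ 0 := by
    intro z
    obtain ⟨θ, rfl⟩ := hsurj z
    rw [hFe, hXa, hYa, sub_self, zero_div, Real.cos_zero]
    linarith [Real.cos_le_one (θ - (a + a) / 2)]
  have hF1 : ∀ z, 0 ≤ F (1, z) := by
    intro z
    obtain ⟨θ, rfl⟩ := hsurj z
    have h2 : (Y 1 - X 1) / 2 = Real.pi := by rw [hend]; ring
    rw [hFe, h2, Real.cos_pi]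
    linarith [Real.neg_one_le_cos (θ - (X 1 + Y 1) / 2)]
  have hFa : ∀ t, 0 ≤ F (t, Circle.exp a) := by
    intro t
    rw [hFe, sub_nonneg, ← Real.cos_abs (a - (X t + Y t) / 2)]
    apply Real.cos_le_cos_of_nonneg_of_le_pi (abs_nonneg _)
    · linarith [hlen t]
    · rw [abs_le]
      constructor
      · linarith [hXle t]
      · linarith [hYle t]
  have hzero : ∀ t z, F (t, z) = 0 → z = Circle.exp (X t) ∨ z = Circle.exp (Y t) := by
    intro t z hz
    obtain ⟨θ, rfl⟩ := hsurj z
    rw [hFe, sub_eq_zero, Real.cos_eq_cos_iff] at hz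
    obtain ⟨k, hk | hk⟩ := hz
    · right
      rw [Circle.exp_eq_exp]
      exact ⟨-k, by push_cast; linarith⟩
    · left
      rw [Circle.exp_eq_exp]
      exact ⟨k, by linarith⟩
  have hnz : ∀ p ∈ Z', ∀ t, ¬ (F (t, p.1) = 0 ∧ F (t, p.2) = 0) := by
    rintro ⟨z, w⟩ hp t ⟨h1, h2⟩
    have hp' : (h z, h w) ∈ Z := hp
    have hd : r ≤ dist (h z) (h w) := hZd _ hp'
    have hst := hs t
    rcases hzero t z h1 with e1 | e1 <;> rcases hzero t w h2 with e2 | e2
    · rw [e1, e2, dist_self] at hd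
      linarith
    · rw [e1, e2] at hd
      linarith
    · rw [e1, e2, dist_comm] at hd
      linarith
    · rw [e1, e2, dist_self] at hd
      linarith
  have hc1 : h (Circle.exp a) ∈ Prod.fst '' Z := by rw [hfr]; exact ⟨_, rfl⟩
  have hc2 : h (Circle.exp a) ∈ Prod.snd '' Z := by rw [← hfs]; exact hc1
  obtain ⟨⟨u, v⟩, hp, hpc⟩ := hc1
  obtain ⟨⟨u', v'⟩, hq, hqc⟩ := hc2
  simp only at hpc hqc
  subst hpc
  subst hqc
  obtain ⟨y, hy⟩ := (hZC hp).2
  obtain ⟨x, hx⟩ := (hZC hq).1
  simp only at hy hx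
  subst hy
  subst hx
  exact turn F hFc hF0 hF1 Z' hZ'c hnz (Circle.exp a) hFa x y hp hq

end Pool.Agent.H29.SQ
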